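import Mathlib

/-!
# MP_c7af3c_ag, project T2: derivations of fields of characteristic zero
A derivation of `L` over `k` can be prescribed on a transcendence basis; so an element of `L` which
is killed by all the derivations over `k` is algebraic over `k`.
-/

set_option autoImplicit false

namespace Pool.Agent.T2.H95

open KaehlerDifferential TensorProduct

open scoped IntermediateField.algebraAdjoinAdjoin in
/-- derivations can be prescribed on a transcendence basis -/
theorem exists_der {k L : Type*} [Field k] [Field L] [CharZero k] [Algebra k L] {ι : Type*}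
    (v : ι → L) (hv : IsTranscendenceBasis k v) (w : ι → L) :
    ∃ D : Derivation k L L, ∀ i, D (v i) = w i := by
  let S := MvPolynomial ι k
  let : Algebra S L := (MvPolynomial.aeval v : S →ₐ[k] L).toRingHom.toAlgebra
  have hX : ∀ i, algebraMap S L (MvPolynomial.X i) = v i := fun i => MvPolynomial.aeval_X v i
  have : IsScalarTower k S L := IsScalarTower.of_algebraMap_eq' (by
    ext x
    change _ = MvPolynomial.aeval v (MvPolynomial.C x)
    rw [MvPolynomial.aeval_C])
  have : Algebra.FormallyEtale S L := by
    have h1 : AlgebraicIndependent k v := hv.1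
    let A := Algebra.adjoin k (Set.range v)
    let e : S ≃ₐ[k] A := h1.aevalEquiv
    let : Algebra S A := e.toRingEquiv.toRingHom.toAlgebra
    have : IsScalarTower S A L := IsScalarTower.of_algebraMap_eq' (by
      refine RingHom.ext fun x => ?_
      change MvPolynomial.aeval v x = ((e x : A) : L)
      exact (h1.aevalEquiv_apply_coe x).symm)
    have h2 : Algebra.FormallyEtale S A := by
      refine Algebra.FormallyEtale.of_equiv (A := S) (B := A)
        { e.toRingEquiv with commutes' := fun x => rfl }
    have h3 : Algebra.FormallyEtale A L := by
      let E := IntermediateField.adjoin k (Set.range v)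
      have h4 : Algebra.FormallyEtale A E := .of_isLocalization (nonZeroDivisors _)
      have h5 : Algebra.IsAlgebraic E L := hv.isAlgebraic_field
      have h6 : CharZero E := charZero_of_injective_algebraMap (algebraMap k E).injective
      have h7 : Algebra.FormallyEtale E L := Algebra.FormallyEtale.of_isSeparable _ L
      exact Algebra.FormallyEtale.comp A E L
    exact Algebra.FormallyEtale.comp S A L
  let d0 : Derivation k S L := MvPolynomial.mkDerivation k w
  let f : L ⊗[S] Ω[S⁄k] →ₗ[L] L := LinearMap.liftBaseChange L d0.liftKaehlerDifferential
  refine ⟨(f.comp (tensorKaehlerEquivOfFormallyEtale k S L).symm.toLinearMap).compDer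
    (KaehlerDifferential.D k L), fun i => ?_⟩
  rw [← hX i]
  change f ((tensorKaehlerEquivOfFormallyEtale k S L).symm (KaehlerDifferential.D k L
    (algebraMap S L (MvPolynomial.X i)))) = w i
  rw [tensorKaehlerEquivOfFormallyEtale_symm_D_algebraMap]
  change LinearMap.liftBaseChange L d0.liftKaehlerDifferential _ = w i
  rw [LinearMap.liftBaseChange_tmul, one_smul, Derivation.liftKaehlerDifferential_comp_D]
  exact MvPolynomial.mkDerivation_X k w i

/-- an element killed by all the derivations over `k` is algebraic over `k` -/
theorem isAlgebraic_of_der {k L : Type*} [Field k] [Field L] [CharZero k] [Algebra k L] (y : L)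
    (h : ∀ D : Derivation k L L, D y = 0) : IsAlgebraic k y := by
  by_contra hy
  have h1 : AlgebraicIndepOn k id ({y} : Set L) := by
    have h2 : AlgebraicIndependent k (fun _ : ({y} : Set L) => y) :=
      (algebraicIndependent_unique_type_iff).2 hy
    convert h2 using 1
    funext x
    exact x.2
  obtain ⟨t, ht, hb⟩ := exists_isTranscendenceBasis_superset h1
  obtain ⟨D, hD⟩ := exists_der (k := k) (L := L) (fun x : t => (x : L)) hb (fun _ => 1)
  have h3 := hD ⟨y, ht rfl⟩
  exact zero_ne_one ((h D).symm.trans h3)

/-- the version over a relatively algebraically closed subfield -/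
theorem mem_of_der {L : Type*} [Field L] [CharZero L] (K : Subfield L)
    (hK : ∀ y : L, IsAlgebraic K y → y ∈ K) (y : L)
    (h : ∀ D : Derivation ℤ L L, (∀ a ∈ K, D a = 0) → D y = 0) : y ∈ K := by
  have : CharZero K := ⟨fun a b hab => by
    have h2 := congrArg (algebraMap K L) hab
    rw [map_natCast, map_natCast] at h2
    exact Nat.cast_injective h2⟩
  refine hK y (isAlgebraic_of_der y fun D => ?_)
  refine h (D.restrictScalars ℤ) fun a ha => ?_
  change D a = 0
  have h1 := D.map_algebraMap ⟨a, ha⟩
  exact h1

end Pool.Agent.T2.H95
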