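import Pool.Agent.Lib.MP_c7af3c_ag.T2.IfaceB

/-!
# MP_c7af3c_ag, project T2, row CLOSE: the derivations extend to the algebraic closure
-/

set_option autoImplicit false

namespace Pool.Agent.T2.H95

open KaehlerDifferential TensorProduct MvPolynomial Pool.Agent.Gen Pool.Agent.Sharp

section

variable {L E : Type*} [Field L] [Field E] [CharZero L] [Algebra L E] [Algebra.IsAlgebraic L E]

/-- the extension of a derivation to an algebraic extension -/
noncomputable def extDer (D : Derivation ℤ L L) : Derivation ℤ E E :=
  have : Algebra.FormallyEtale L E := Algebra.FormallyEtale.of_isSeparable L E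
  ((LinearMap.liftBaseChange E
      ((Algebra.linearMap L E).compDer D).liftKaehlerDifferential).comp
    (tensorKaehlerEquivOfFormallyEtale ℤ L E).symm.toLinearMap).compDer
    (KaehlerDifferential.D ℤ E)

theorem extDer_alg (D : Derivation ℤ L L) (f : L) :
    extDer (E := E) D (algebraMap L E f) = algebraMap L E (D f) := by
  have h0 : Algebra.FormallyEtale L E := Algebra.FormallyEtale.of_isSeparable L E
  change (LinearMap.liftBaseChange E
      ((Algebra.linearMap L E).compDer D).liftKaehlerDifferential)
    ((tensorKaehlerEquivOfFormallyEtale ℤ L E).symm (KaehlerDifferential.D ℤ E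
      (algebraMap L E f))) = _
  rw [tensorKaehlerEquivOfFormallyEtale_symm_D_algebraMap, LinearMap.liftBaseChange_tmul,
    one_smul, Derivation.liftKaehlerDifferential_comp_D]
  rfl

/-- a derivation which vanishes on `L` is zero -/
theorem der_zero (D : Derivation ℤ E E) (h : ∀ f : L, D (algebraMap L E f) = 0) : D = 0 := by
  have h0 : Algebra.FormallyEtale L E := Algebra.FormallyEtale.of_isSeparable L E
  let D' : Derivation L E E :=
    { toFun := D
      map_add' := D.map_add
      map_smul' := fun c x => by
        rw [Algebra.smul_def c x, D.leibniz, h, smul_zero, add_zero, RingHom.id_apply,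
          Algebra.smul_def c (D x)]
        rfl
      map_one_eq_zero' := D.map_one_eq_zero
      leibniz' := D.leibniz }
  have h1 : D' = 0 := by
    have h2 : Subsingleton (Ω[E⁄L]) := inferInstance
    have h3 := (Derivation.liftKaehlerDifferential_comp D').symm
    rw [h3]
    have h4 : D'.liftKaehlerDifferential = 0 := by
      refine LinearMap.ext fun x => ?_
      rw [Subsingleton.elim x 0, map_zero, map_zero]
    rw [h4]
    rfl
  refine Derivation.ext fun x => ?_
  exact congrArg (fun d : Derivation L E E => d x) h1

/-- extended derivations commute -/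
theorem ext_comm (A B : Derivation ℤ L L) (h : ∀ f, A (B f) = B (A f)) (f : E) :
    extDer (E := E) A (extDer (E := E) B f) = extDer (E := E) B (extDer (E := E) A f) := by
  have h0 : ⁅(extDer A : Derivation ℤ E E), (extDer B : Derivation ℤ E E)⁆ = 0 := by
    refine der_zero (L := L) _ fun f => ?_
    rw [Derivation.commutator_apply, extDer_alg, extDer_alg, extDer_alg, extDer_alg, h f, sub_self]
  have h3 := congrArg (fun d : Derivation ℤ E E => d f) h0
  simp only [Derivation.commutator_apply, Derivation.coe_zero, Pi.zero_apply] at h3
  exact sub_eq_zero.1 h3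

end

/-- Row CLOSE. -/
theorem close : CloseStatement := by
  intro Ω _ _ n c d D
  let E := AlgebraicClosure Ω
  let φ : Ω →+* E := algebraMap Ω E
  refine ⟨{ F := fun m => MvPolynomial.map φ (D.F m)
            hom := fun m => (D.hom m).map φ
            del := fun m I => extDer (D.del m I)
            dual := fun m I m' J hI hJ => ?_ }, fun m => rfl, fun m I f => extDer_alg _ _, ?_⟩
  · rw [coeff_map]
    refine (extDer_alg (D.del m I) _).trans ?_
    rw [D.dual m I m' J hI hJ]
    split_ifs
    · exact map_one _
    · exact map_zero _
  · intro hc m I m' I' f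
    exact ext_comm (D.del m I) (D.del m' I') (fun f => hc m I m' I' f) f

end Pool.Agent.T2.H95
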