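import Pool.Agent.Lib.MP_c7af3c_ag.T2.H95.Bad
import Mathlib.FieldTheory.Galois.Infinite
import Mathlib.FieldTheory.AlgebraicClosure

/-!
# MP_c7af3c_ag, project T2, row LIFT: passage to the algebraic closure
-/

set_option autoImplicit false

namespace Pool.Agent.T2.H95

open MvPolynomial Pool.Agent.Gen Pool.Agent.Sharp Pool.Agent.Edge
open Pool.Agent.Edge.H65 (ssub)

section

variable {Ω K : Type} [Field Ω] [Field K] [Algebra Ω K]

/-- the conjugates of a line of small variation -/
theorem bad_conj {D : D6 Ω} {D' : D6 K} (h : Ext6 D D') (x : Fin 5 → Ω) {y : Fin 5 → K}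
    (hb : Bad D' (fun j => algebraMap Ω K (x j)) y) (s : K ≃ₐ[Ω] K) :
    Bad D' (fun j => algebraMap Ω K (x j)) (fun j => s (y j)) := by
  obtain ⟨κ, hκ⟩ := hb
  refine ⟨fun j => s (κ j), fun G hG h0 => ?_⟩
  set G0 : MvPolynomial (Fin 5) K := map (s.symm : K →+* K) G with hG0
  have hss : map (s : K →+* K) G0 = G := by
    rw [hG0, map_map]
    have e1 : (s : K →+* K).comp (s.symm : K →+* K) = RingHom.id K := by
      ext a
      exact s.apply_symm_apply a
    rw [e1, map_id]
  have h1 : lineP G0 (fun j => algebraMap Ω K (x j)) y = 0 := by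
    have h2 := Pool.Agent.Lines.H19.lineP_map (s.symm : K →+* K) G
      (fun j => algebraMap Ω K (x j)) (fun j => s (y j))
    rw [h0, Polynomial.map_zero] at h2
    have e1 : (fun j => (s.symm : K →+* K) (algebraMap Ω K (x j))) =
        fun j => algebraMap Ω K (x j) := by
      funext j
      exact s.symm.commutes (x j)
    have e2 : (fun j => (s.symm : K →+* K) (s (y j))) = y := by
      funext j
      exact s.symm_apply_apply (y j)
    rw [e1, e2] at h2
    exact h2.symm
  have h3 := hκ G0 (hG.map _) h1
  rw [Submodule.mem_span_pair] at h3 ⊢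
  obtain ⟨a, b, hab⟩ := h3
  refine ⟨s a, s b, ?_⟩
  funext p
  have h4 := congrArg s (congrFun hab p)
  rw [h.V_sig, hss] at h4
  rw [← h4]
  simp only [Pi.add_apply, Pi.smul_apply, smul_eq_mul, map_add, map_mul, AlgEquiv.commutes]

/-- `Pl.ln` over the larger field -/
theorem ln_lift [CharZero K] [IsGalois Ω K] {D : D6 Ω} {D' : D6 K} (h : Ext6 D D')
    {x : Fin 5 → Ω} {t0 : Fin 5} (hx : x t0 = 1) (hw : W0 D x)
    (ln : ∀ y κ : Fin 5 → Ω, LinearIndependent Ω ![x, y] →
      ∃ G : MvPolynomial (Fin 5) Ω, G.IsHomogeneous 6 ∧ lineP G x y = 0 ∧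
        D.V x 0 G ∉ Submodule.span Ω {x, κ}) (y κ : Fin 5 → K)
    (hxy : LinearIndependent K ![fun j => algebraMap Ω K (x j), y]) :
    ∃ G : MvPolynomial (Fin 5) K, G.IsHomogeneous 6 ∧
      lineP G (fun j => algebraMap Ω K (x j)) y = 0 ∧
      D'.V (fun j => algebraMap Ω K (x j)) 0 G ∉
        Submodule.span K {(fun j => algebraMap Ω K (x j)), κ} := by
  classical
  by_contra hcon
  push Not at hcon
  set x' : Fin 5 → K := fun j => algebraMap Ω K (x j) with hx'
  have hb : Bad D' x' y := ⟨κ, hcon⟩
  have hx1 : x' t0 = 1 := by rw [hx']; simp only [hx, map_one]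
  -- the conjugates lie in the same plane
  have hin : ∀ s : K ≃ₐ[Ω] K, ∃ a b : K, (fun j => s (y j)) = a • x' + b • y := by
    intro s
    have h1 := bad_uniq D' hx1 (h.w0 x hw) hb (bad_conj h x hb s)
    have h2 : (fun j => s (y j)) ∈ Submodule.span K (Set.range ![x', y]) := by
      by_contra h3
      exact h1 (linearIndependent_finCons.2 ⟨hxy, h3⟩)
    rw [Matrix.range_cons, Matrix.range_cons, Matrix.range_empty, Set.union_empty,
      Set.singleton_union, Submodule.mem_span_pair] at h2
    obtain ⟨a, b, hab⟩ := h2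
    exact ⟨a, b, hab.symm⟩
  -- normalisation
  set y1 : Fin 5 → K := y - y t0 • x' with hy1
  have hy1t : y1 t0 = 0 := by
    rw [hy1, Pi.sub_apply, Pi.smul_apply, hx1, smul_eq_mul, mul_one, sub_self]
  have hy1n : ∃ j1, y1 j1 ≠ 0 := by
    by_contra h1
    push Not at h1
    have h2 := LinearIndependent.pair_iff.1 hxy (- y t0) 1 (by
      rw [one_smul, neg_smul, neg_add_eq_sub]
      funext j
      exact h1 j)
    exact one_ne_zero h2.2
  obtain ⟨j1, hj1⟩ := hy1n
  set y3 : Fin 5 → K := fun j => y1 j / y1 j1 with hy3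
  have hfix : ∀ (s : K ≃ₐ[Ω] K) j, s (y3 j) = y3 j := by
    intro s j
    obtain ⟨a, b, hab⟩ := hin s
    have h1 : ∀ j, s (y1 j) = b * y1 j := by
      intro j
      have h2 := congrFun hab j
      have h3 := congrFun hab t0
      simp only [Pi.add_apply, Pi.smul_apply, smul_eq_mul, hx1, mul_one] at h2 h3
      have h4 : s (x' j) = x' j := s.commutes (x j)
      rw [hy1]
      simp only [Pi.sub_apply, Pi.smul_apply, smul_eq_mul, map_sub, map_mul, h4, h2, h3]
      ring
    have hb0 : b ≠ 0 := by
      intro hb0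
      have := h1 j1
      rw [hb0, zero_mul] at this
      exact hj1 ((map_eq_zero_iff s s.injective).1 this)
    rw [hy3]
    simp only [map_div₀, h1]
    rw [mul_div_mul_left _ _ hb0]
  have hex : ∀ j, ∃ a : Ω, algebraMap Ω K a = y3 j := fun j =>
    (InfiniteGalois.mem_range_algebraMap_iff_fixed (y3 j)).2 fun s => hfix s j
  choose y0 hy0 using hex
  have hy0' : (fun j => algebraMap Ω K (y0 j)) = y3 := funext hy0
  have hinj : Function.Injective (algebraMap Ω K) := (algebraMap Ω K).injective
  have hy0t : y0 t0 = 0 := hinj (by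
    rw [hy0, map_zero, hy3]
    simp only [hy1t, zero_div])
  have hy0j : y0 j1 = 1 := hinj (by
    rw [hy0, map_one, hy3]
    simp only [div_self hj1])
  have hli : LinearIndependent Ω ![x, y0] := by
    rw [LinearIndependent.pair_iff]
    intro s t hst
    have h1 := congrFun hst t0
    have h2 := congrFun hst j1
    simp only [Pi.add_apply, Pi.smul_apply, smul_eq_mul, hx, hy0t, hy0j, mul_zero, mul_one,
      add_zero, Pi.zero_apply] at h1 h2
    rw [h1, zero_mul, zero_add] at h2
    exact ⟨h1, h2⟩
  have hyy : y = y t0 • x' + y1 j1 • y3 := by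
    funext j
    simp only [Pi.add_apply, Pi.smul_apply, smul_eq_mul, hy3]
    rw [mul_div_cancel₀ _ hj1, hy1]
    simp only [Pi.sub_apply, Pi.smul_apply, smul_eq_mul]
    ring
  have hV : ∀ G : MvPolynomial (Fin 5) Ω, G.IsHomogeneous 6 → lineP G x y0 = 0 →
      (fun p => algebraMap Ω K (D.V x 0 G p)) ∈ Submodule.span K {x', κ} := by
    intro G hG h0
    have h1 : lineP (map (algebraMap Ω K) G) x' y3 = 0 := by
      have h2 := Pool.Agent.Lines.H19.lineP_map (algebraMap Ω K) G x y0
      rw [h0, Polynomial.map_zero, hy0'] at h2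
      exact h2.symm
    have h3 := hcon _ (hG.map _) (lineP_change (hG.map _) hyy h1)
    have h4 : D'.V x' 0 (map (algebraMap Ω K) G) = fun p => algebraMap Ω K (D.V x 0 G p) :=
      funext fun p => h.V_map x G p
    rwa [h4] at h3
  obtain ⟨G0, hG0, h0, hn0⟩ := ln y0 0 hli
  obtain ⟨G1, hG1, h1, hn1⟩ := ln y0 (D.V x 0 G0) hli
  have hli3 : LinearIndependent Ω ![D.V x 0 G1, x, D.V x 0 G0] := by
    refine linearIndependent_finCons.2 ⟨?_, ?_⟩
    · rw [LinearIndependent.pair_iff]
      intro s t hst
      have ht : t = 0 := by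
        by_contra ht
        apply hn0
        rw [Submodule.mem_span_pair]
        refine ⟨- (s / t), 0, ?_⟩
        rw [smul_zero, add_zero]
        funext j
        have h2 := congrFun hst j
        simp only [Pi.add_apply, Pi.smul_apply, smul_eq_mul, Pi.zero_apply] at h2 ⊢
        field_simp
        linear_combination (-1 : Ω) * h2
      refine ⟨?_, ht⟩
      have h2 := congrFun hst t0
      simp only [ht, Pi.add_apply, Pi.smul_apply, smul_eq_mul, hx, mul_one, zero_mul, add_zero,
        Pi.zero_apply] at h2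
      exact h2
    · rw [Matrix.range_cons, Matrix.range_cons, Matrix.range_empty, Set.union_empty,
        Set.singleton_union]
      exact hn1
  have hli' := li_ext (K := K) _ hli3
  have h5 : Module.finrank K (Submodule.span K (Set.range fun (i : Fin 3) p =>
      algebraMap Ω K ((![D.V x 0 G1, x, D.V x 0 G0] : Fin 3 → Fin 5 → Ω) i p))) = 3 := by
    have h9 := finrank_span_eq_card hli'
    rw [Fintype.card_fin] at h9
    exact h9
  have hx2 : x' ∈ Submodule.span K {x', κ} := Submodule.subset_span (Set.mem_insert _ _)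
  have h6 : Submodule.span K (Set.range fun (i : Fin 3) p =>
      algebraMap Ω K ((![D.V x 0 G1, x, D.V x 0 G0] : Fin 3 → Fin 5 → Ω) i p)) ≤
      Submodule.span K {x', κ} := by
    rw [Submodule.span_le]
    rintro _ ⟨i, rfl⟩
    fin_cases i
    · exact hV G1 hG1 h1
    · exact hx2
    · exact hV G0 hG0 h0
  have h7 := Submodule.finrank_mono h6
  have h8 : Module.finrank K (Submodule.span K {x', κ}) ≤ 2 := by
    have h9 := finrank_range_le_card (R := K) (b := ![x', κ])
    rw [Fintype.card_fin, Set.finrank, Matrix.range_cons, Matrix.range_cons, Matrix.range_empty,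
      Set.union_empty, Set.singleton_union] at h9
    exact h9
  omega

end

/-- Row LIFT. -/
theorem lift : LiftStatement := by
  intro hcl Ω _ _ k D x t P hP hR
  obtain ⟨D', hF, hdel, hcomm⟩ := hcl Ω 4 1 (fun _ => 6) D
  have hE : Ext6 D D' := ⟨hF 0, hdel 0⟩
  let φ : k →+* AlgebraicClosure Ω := (algebraMap Ω (AlgebraicClosure Ω)).comp k.subtype
  let _ : Algebra k (AlgebraicClosure Ω) := φ.toAlgebra
  have halg : ∀ a : k, algebraMap k (AlgebraicClosure Ω) a =
    algebraMap Ω (AlgebraicClosure Ω) a := fun a => rfl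
  have hGal : IsGalois Ω (AlgebraicClosure Ω) := {}
  refine ⟨AlgebraicClosure Ω, inferInstance, inferInstance, inferInstance,
    (algebraicClosure k (AlgebraicClosure Ω)).toSubfield, D',
    fun j => algebraMap Ω (AlgebraicClosure Ω) (x j),
    fun i f => algebraMap Ω (AlgebraicClosure Ω) (P i f), ?_, ?_⟩
  · refine { comm := hcomm hP.comm, h0 := ?_, w0 := hE.w0 x hP.w0, inj := hP.inj, Pt := ?_,
             x0 := ?_, xP := ?_, int := ?_, ln := ?_, kF := ?_, kalg := ?_, xk := ?_ }
    · rw [hE.F, eval_map]
      exact (eval₂_comp (algebraMap Ω (AlgebraicClosure Ω)) x (D.F 0)).symm.trans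
        ((congrArg _ hP.h0).trans (map_zero _))
    · intro i j
      rw [hP.Pt i j]
      split_ifs
      · exact map_one _
      · exact map_zero _
    · simp only [hP.x0, map_one]
    · intro f
      have h1 := congrArg (algebraMap Ω (AlgebraicClosure Ω)) (hP.xP f)
      rw [map_sum] at h1
      simp only [map_mul] at h1
      exact h1
    · intro G hG h0
      exact ⟨hE.int x P (fun G hG h0 => (hP.int G hG h0).1) G hG h0, fun i =>
        hE.int (P i) P (fun G hG h0 => (hP.int G hG h0).2 i) G hG h0⟩
    · exact fun y κ hy => ln_lift hE hP.x0 hP.w0 hP.ln y κ hy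
    · intro I
      rw [hE.F, coeff_map]
      change _ ∈ algebraicClosure k (AlgebraicClosure Ω)
      rw [mem_algebraicClosure_iff]
      exact isAlgebraic_algebraMap (⟨coeff I (D.F 0), hP.kF I⟩ : k)
    · intro z p hp hc hz
      change z ∈ algebraicClosure k (AlgebraicClosure Ω)
      rw [mem_algebraicClosure_iff]
      have h1 : IsAlgebraic (algebraicClosure k (AlgebraicClosure Ω)) z := by
        have hpl : p ∈ Polynomial.lifts (algebraMap (algebraicClosure k (AlgebraicClosure Ω))
            (AlgebraicClosure Ω)) := by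
          rw [Polynomial.lifts_iff_coeff_lifts]
          intro i
          exact ⟨⟨p.coeff i, hc i⟩, rfl⟩
        obtain ⟨q, hq⟩ := hpl
        refine ⟨q, ?_, ?_⟩
        · rintro rfl
          apply hp
          rw [← hq]
          exact Polynomial.map_zero _
        · rw [Polynomial.aeval_def, ← Polynomial.eval_map]
          have hq' : q.map (algebraMap (algebraicClosure k (AlgebraicClosure Ω))
            (AlgebraicClosure Ω)) = p := hq
          rw [hq', hz]
      exact h1.restrictScalars k
    · obtain ⟨i, hi⟩ := hP.xk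
      refine ⟨i, fun hmem => hi ?_⟩
      change _ ∈ algebraicClosure k (AlgebraicClosure Ω) at hmem
      rw [mem_algebraicClosure_iff] at hmem
      obtain ⟨q, hq0, hq⟩ := hmem
      refine hP.kalg (x i) (q.map k.subtype) ?_ ?_ ?_
      · rw [Ne, Polynomial.map_eq_zero_iff k.subtype.injective]
        exact hq0
      · intro j
        rw [Polynomial.coeff_map]
        exact (q.coeff j).2
      · apply (algebraMap Ω (AlgebraicClosure Ω)).injective
        rw [map_zero, ← hq, Polynomial.aeval_def, Polynomial.eval_map, Polynomial.hom_eval₂]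
        rfl
  · intro B hB
    exact hE.r6 x t P B hB (hR B hB)

end Pool.Agent.T2.H95
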