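import Pool.Agent.Lib.MP_c7af3c_ag.T2.M3.Defs
import Pool.Agent.Lib.MP_c7af3c_ag.T2.H14.Tools
import Mathlib.LinearAlgebra.Matrix.Kronecker

/-!
# MP_c7af3c_ag, project T2, the cubic block: change of the frame (row M3_F, helper95)
-/

set_option autoImplicit false

namespace Pool.Agent.T2.H95

open MvPolynomial Pool.Agent.Gen Pool.Agent.Sharp Pool.Agent.Edge Pool.Agent.T2
open Pool.Agent.T2.M3

section

variable {L : Type} [Field L]

/-- the action on the rows -/
def aM (g : Matrix (Fin 3) (Fin 3) L) : Matrix Rw Rw L :=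
  Matrix.fromBlocks (Matrix.kroneckerMap (fun a b => a * b) g (1 : Matrix (Fin 5) (Fin 5) L)) 0 0 1

/-- the lower right block -/
def g2 (g : Matrix (Fin 3) (Fin 3) L) : Matrix (Fin 2) (Fin 2) L :=
  Matrix.of fun a b => g a.succ b.succ

/-- the action on the columns -/
def tM (g h : Matrix (Fin 3) (Fin 3) L) (w : I10 → Fin 3 → Fin 3 → L) : Matrix Cl Cl L :=
  Matrix.fromBlocks
    (Matrix.fromBlocks 1 0 (Matrix.of fun p _ => g p.1.succ 0 * h 0 p.2)
      (Matrix.kroneckerMap (fun a b => a * b) (g2 g) h.transpose))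
    (Matrix.of fun c I => - Sum.elim (fun _ => ∑ j, w I 0 j * h j 0)
      (fun p => ∑ j, w I p.1.succ j * h j p.2) c) 0 1

theorem det_aM (g : Matrix (Fin 3) (Fin 3) L) : (aM g).det = g.det ^ 5 := by
  unfold aM
  rw [Matrix.det_fromBlocks_zero₂₁, Matrix.det_one, mul_one]
  have h := Matrix.det_kronecker g (1 : Matrix (Fin 5) (Fin 5) L)
  rw [Matrix.det_one, one_pow, mul_one, Fintype.card_fin] at h
  exact h

theorem det_tM (g h : Matrix (Fin 3) (Fin 3) L) (w : I10 → Fin 3 → Fin 3 → L) :
    (tM g h w).det = (g2 g).det ^ 3 * h.det ^ 2 := by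
  unfold tM
  rw [Matrix.det_fromBlocks_zero₂₁, Matrix.det_one, mul_one, Matrix.det_fromBlocks_zero₁₂,
    Matrix.det_one, one_mul]
  have h := Matrix.det_kronecker (g2 g) h.transpose
  rw [Matrix.det_transpose, Fintype.card_fin, Fintype.card_fin] at h
  exact h

/-- the part of a row in the frame columns -/
theorem row_zero (P : Fin 3 → Fin 5 → L) (D : D6 L) (G : I10 → MvPolynomial (Fin 5) L)
    (r : Fin 2 → I10 → L) (f : Fin 5) (α : Unit ⊕ Fin 2 × Fin 3 → L) :
    ∑ c, cM D P G r (Sum.inl c) (Sum.inl (0, f)) * α c = P 0 f * α (Sum.inl ()) := by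
  rw [Fintype.sum_sum_type]
  have h1 : ∀ q : Fin 2 × Fin 3, cM D P G r (Sum.inl (Sum.inr q)) (Sum.inl (0, f)) = 0 := by
    intro q
    have h2 : (0 : Fin 3) ≠ q.1.succ := (Fin.succ_ne_zero _).symm
    simp only [cM, Sum.elim_inl]
    exact if_neg h2
  simp only [h1, zero_mul, Finset.sum_const_zero, add_zero]
  simp [cM]

theorem row_succ (P : Fin 3 → Fin 5 → L) (D : D6 L) (G : I10 → MvPolynomial (Fin 5) L)
    (r : Fin 2 → I10 → L) (a : Fin 2) (f : Fin 5) (α : Unit ⊕ Fin 2 × Fin 3 → L) :
    ∑ c, cM D P G r (Sum.inl c) (Sum.inl (a.succ, f)) * α c =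
      ∑ b, P b f * α (Sum.inr (a, b)) := by
  rw [Fintype.sum_sum_type]
  have h1 : ∀ u : Unit, cM D P G r (Sum.inl (Sum.inl u)) (Sum.inl (a.succ, f)) = 0 := by
    intro u
    have h2 : a.succ ≠ (0 : Fin 3) := Fin.succ_ne_zero _
    simp only [cM, Sum.elim_inl]
    exact if_neg h2
  simp only [h1, zero_mul, Finset.sum_const_zero, zero_add]
  rw [Fintype.sum_prod_type, Finset.sum_eq_single a]
  · refine Finset.sum_congr rfl fun b _ => ?_
    simp [cM]
  · intro a' _ ha'
    refine Finset.sum_eq_zero fun b _ => ?_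
    have h2 : a.succ ≠ a'.succ := fun h => ha' (Fin.succ_injective _ h).symm
    simp only [cM, Sum.elim_inl]
    rw [if_neg h2, zero_mul]
  · intro h
    exact absurd (Finset.mem_univ _) h

theorem row_inr (P : Fin 3 → Fin 5 → L) (D : D6 L) (G : I10 → MvPolynomial (Fin 5) L)
    (r : Fin 2 → I10 → L) (s : Fin 2) (α : Unit ⊕ Fin 2 × Fin 3 → L) :
    ∑ c, cM D P G r (Sum.inl c) (Sum.inr s) * α c = 0 := by
  refine Finset.sum_eq_zero fun c _ => ?_
  rcases c with c | c <;> simp [cM]

/-- the action on the rows, rows of the frame -/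
theorem aM_inl (g : Matrix (Fin 3) (Fin 3) L) (i : Fin 3) (f : Fin 5) (β : Rw → L) :
    ∑ ρ, aM g (Sum.inl (i, f)) ρ * β ρ = ∑ i', g i i' * β (Sum.inl (i', f)) := by
  rw [Fintype.sum_sum_type]
  have h1 : ∀ s : Fin 2, aM g (Sum.inl (i, f)) (Sum.inr s) = 0 := fun s => by simp [aM]
  simp only [h1, zero_mul, Finset.sum_const_zero, add_zero]
  rw [Fintype.sum_prod_type]
  refine Finset.sum_congr rfl fun i' _ => ?_
  rw [Finset.sum_eq_single f]
  · simp [aM, Matrix.kroneckerMap]
  · intro f' _ hf
    simp [aM, Matrix.kroneckerMap, Matrix.one_apply_ne (Ne.symm hf)]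
  · intro h
    exact absurd (Finset.mem_univ _) h

theorem aM_inr (g : Matrix (Fin 3) (Fin 3) L) (s : Fin 2) (β : Rw → L) :
    ∑ ρ, aM g (Sum.inr s) ρ * β ρ = β (Sum.inr s) := by
  rw [Finset.sum_eq_single (Sum.inr s)]
  · simp [aM]
  · intro ρ _ hρ
    rcases ρ with ρ | ρ
    · simp [aM]
    · have : s ≠ ρ := fun h => hρ (by rw [h])
      simp [aM, Matrix.one_apply_ne this]
  · intro h
    exact absurd (Finset.mem_univ _) h

variable {D : D6 L} {P Q : Fin 3 → Fin 5 → L} {g h : Matrix (Fin 3) (Fin 3) L}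
  {G : I10 → MvPolynomial (Fin 5) L} {r : Fin 2 → I10 → L}

/-- the basic identity -/
theorem ident (hQ : ∀ j f, Q j f = ∑ k, h j k * P k f)
    (hP : ∀ i f, P i f = ∑ j, g i j * Q j f) (h01 : g 0 1 = 0) (h02 : g 0 2 = 0)
    (h00 : g 0 0 * h 0 0 = 1) (ρ : Rw) (k : Cl) :
    ∑ c, cM D P G r c ρ * tM g h (fun I i j => der D (G I) (g i j)) c k =
      ∑ ρ', aM g ρ ρ' * cM D Q G r k ρ' := by
  have hP0 : ∀ f, P 0 f = g 0 0 * Q 0 f := by
    intro f
    rw [hP, Fin.sum_univ_three, h01, h02]
    ring
  rw [Fintype.sum_sum_type]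
  rcases ρ with ⟨i, f⟩ | s
  · rw [aM_inl]
    rcases k with k | I
    · -- frame columns
      have hz : ∑ I, cM D P G r (Sum.inr I) (Sum.inl (i, f)) *
          tM g h (fun I i j => der D (G I) (g i j)) (Sum.inr I) (Sum.inl k) = 0 := by
        refine Finset.sum_eq_zero fun I _ => ?_
        simp [tM]
      rw [hz, add_zero]
      rcases k with k | ⟨a, b⟩
      · have hR : ∑ i', g i i' * cM D Q G r (Sum.inl (Sum.inl k)) (Sum.inl (i', f)) =
            g i 0 * Q 0 f := by
          rw [Fin.sum_univ_three]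
          simp [cM]
        rw [hR]
        induction i using Fin.cases with
        | zero =>
          rw [row_zero, hP0]
          simp [tM]
        | succ a =>
          rw [row_succ, hQ 0 f, Finset.mul_sum]
          refine Finset.sum_congr rfl fun b _ => ?_
          simp only [tM, Matrix.fromBlocks_apply₁₁, Matrix.fromBlocks_apply₂₁, Matrix.of_apply]
          ring
      · have hR : ∑ i', g i i' * cM D Q G r (Sum.inl (Sum.inr (a, b))) (Sum.inl (i', f)) =
            g i a.succ * Q b f := by
          rw [Finset.sum_eq_single a.succ]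
          · simp [cM]
          · intro i' _ hi
            simp [cM, hi]
          · intro h
            exact absurd (Finset.mem_univ _) h
        rw [hR]
        induction i using Fin.cases with
        | zero =>
          rw [row_zero]
          have h0 : g 0 a.succ = 0 := by
            fin_cases a
            · exact h01
            · exact h02
          rw [h0]
          simp [tM]
        | succ a' =>
          rw [row_succ, hQ b f, Finset.mul_sum]
          refine Finset.sum_congr rfl fun b' _ => ?_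
          simp only [tM, Matrix.fromBlocks_apply₁₁, Matrix.fromBlocks_apply₂₂, Matrix.of_apply,
            Matrix.kroneckerMap_apply, Matrix.transpose_apply, g2]
          ring
    · -- variations
      have hone : ∑ I', cM D P G r (Sum.inr I') (Sum.inl (i, f)) *
          tM g h (fun I i j => der D (G I) (g i j)) (Sum.inr I') (Sum.inr I) =
          D.V (P i) 0 (G I) f := by
        rw [Finset.sum_eq_single I]
        · simp [tM, cM]
        · intro I' _ hI
          simp only [tM, Matrix.fromBlocks_apply₂₂]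
          rw [Matrix.one_apply_ne hI, mul_zero]
        · intro h
          exact absurd (Finset.mem_univ _) h
      have hR : ∑ i', g i i' * cM D Q G r (Sum.inr I) (Sum.inl (i', f)) =
          ∑ j, g i j * der D (G I) (Q j f) := by
        refine Finset.sum_congr rfl fun j _ => ?_
        simp only [cM, Sum.elim_inl]
        rw [Pool.Agent.T2.V_der]
      have hV : D.V (P i) 0 (G I) f = ∑ j, g i j * der D (G I) (Q j f) +
          ∑ j, der D (G I) (g i j) * Q j f := by
        rw [Pool.Agent.T2.V_der, hP, map_sum, ← Finset.sum_add_distrib]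
        refine Finset.sum_congr rfl fun j _ => ?_
        rw [Derivation.leibniz, smul_eq_mul, smul_eq_mul]
        ring
      rw [hone, hR, hV]
      have hex : ∑ j, der D (G I) (g i j) * Q j f =
          ∑ k, P k f * ∑ j, der D (G I) (g i j) * h j k := by
        simp only [Finset.mul_sum]
        rw [Finset.sum_comm]
        refine Finset.sum_congr rfl fun j _ => ?_
        rw [hQ j f, Finset.mul_sum]
        refine Finset.sum_congr rfl fun k _ => ?_
        ring
      induction i using Fin.cases with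
      | zero =>
        rw [row_zero, hex]
        have hh : ∑ k, P k f * ∑ j, der D (G I) (g 0 j) * h j k =
            der D (G I) (g 0 0) * Q 0 f := by
          rw [← hex, Fin.sum_univ_three, h01, h02, map_zero]
          ring
        rw [hh]
        have ht : tM g h (fun I i j => der D (G I) (g i j)) (Sum.inl (Sum.inl ())) (Sum.inr I) =
            - (der D (G I) (g 0 0) * h 0 0) := by
          simp only [tM, Matrix.fromBlocks_apply₁₂, Matrix.of_apply, Sum.elim_inl]
          rw [Fin.sum_univ_three, h01, h02, map_zero]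
          ring
        rw [ht, hP0]
        linear_combination (- (der D (G I) (g 0 0)) * Q 0 f) * h00
      | succ a =>
        rw [row_succ, hex]
        have ht : ∀ b, tM g h (fun I i j => der D (G I) (g i j)) (Sum.inl (Sum.inr (a, b)))
            (Sum.inr I) = - ∑ j, der D (G I) (g a.succ j) * h j b := by
          intro b
          simp only [tM, Matrix.fromBlocks_apply₁₂, Matrix.of_apply, Sum.elim_inr]
        simp only [ht, mul_neg, Finset.sum_neg_distrib]
        ring
  · rw [aM_inr, row_inr, zero_add]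
    rcases k with k | I
    · have hR : cM D Q G r (Sum.inl k) (Sum.inr s) = 0 := by
        rcases k with k | k <;> simp [cM]
      rw [hR]
      refine Finset.sum_eq_zero fun I _ => ?_
      simp [tM]
    · rw [Finset.sum_eq_single I]
      · simp [tM, cM]
      · intro I' _ hI
        simp only [tM, Matrix.fromBlocks_apply₂₂]
        rw [Matrix.one_apply_ne hI, mul_zero]
      · intro h
        exact absurd (Finset.mem_univ _) h

/-- Row M3_F. -/
theorem m3f : FStatement := by
  intro L _ _ D e P Q g G r hg h01 h02 hP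
  have hu : IsUnit g.det := isUnit_iff_ne_zero.2 hg
  have hd : g.det = g 0 0 * (g2 g).det := by
    rw [Matrix.det_fin_three, Matrix.det_fin_two, h01, h02]
    simp only [g2, Matrix.of_apply, Fin.succ_zero_eq_one, Fin.succ_one_eq_two]
    ring
  have h0 : g 0 0 ≠ 0 := fun h => hg (by rw [hd, h, zero_mul])
  have hQ : ∀ j f, Q j f = ∑ k, g⁻¹ j k * P k f := by
    intro j f
    have h1 : ∑ k, g⁻¹ j k * P k f = ∑ l, (g⁻¹ * g) j l * Q l f := by
      simp only [hP, Matrix.mul_apply, Finset.mul_sum, Finset.sum_mul]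
      rw [Finset.sum_comm]
      refine Finset.sum_congr rfl fun l _ => Finset.sum_congr rfl fun k _ => ?_
      ring
    rw [h1, Matrix.nonsing_inv_mul g hu, Finset.sum_eq_single j]
    · rw [Matrix.one_apply_eq, one_mul]
    · intro l _ hl
      rw [Matrix.one_apply_ne (Ne.symm hl), zero_mul]
    · intro h
      exact absurd (Finset.mem_univ _) h
  have h00 : g 0 0 * g⁻¹ 0 0 = 1 := by
    have h1 := congrFun (congrFun (Matrix.mul_nonsing_inv g hu) 0) 0
    rw [Matrix.mul_apply, Fin.sum_univ_three, h01, h02, Matrix.one_apply_eq] at h1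
    linear_combination h1
  have hmat : (Matrix.of fun a k => cM D P G r k (e a)) *
      tM g g⁻¹ (fun I i j => der D (G I) (g i j)) =
      ((aM g).submatrix e e) * (Matrix.of fun a k => cM D Q G r k (e a)) := by
    ext a k
    rw [Matrix.mul_apply, Matrix.mul_apply]
    simp only [Matrix.of_apply, Matrix.submatrix_apply]
    rw [ident hQ hP h01 h02 h00 (e a) k]
    exact (Equiv.sum_comp e fun ρ' => aM g (e a) ρ' * cM D Q G r k ρ').symm
  have h3 := congrArg Matrix.det hmat
  rw [Matrix.det_mul, Matrix.det_mul, Matrix.det_submatrix_equiv_self, det_aM, det_tM,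
    Matrix.det_nonsing_inv, Ring.inverse_eq_inv'] at h3
  change dM e D P G r * _ = _ * dM e D Q G r at h3
  have h2 : (g2 g).det = g.det / g 0 0 := by
    rw [hd]
    field_simp
  rw [h2] at h3
  have h4 : dM e D P G r * ((g.det / g 0 0) ^ 3 * g.det⁻¹ ^ 2) * (g 0 0 ^ 3 / g.det) =
      g.det ^ 5 * dM e D Q G r * (g 0 0 ^ 3 / g.det) := by rw [h3]
  have h5 : dM e D P G r * ((g.det / g 0 0) ^ 3 * g.det⁻¹ ^ 2) * (g 0 0 ^ 3 / g.det) =
      dM e D P G r := by
    field_simp
  have h6 : g.det ^ 5 * dM e D Q G r * (g 0 0 ^ 3 / g.det) =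
      g.det ^ 4 * g 0 0 ^ 3 * dM e D Q G r := by
    field_simp
  rw [← h5, h4, h6]

end

end Pool.Agent.T2.H95
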