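import Pool.Agent.Lib.MP_c7af3c_ag.T2.H95.Lam

/-!
# MP_c7af3c_ag, project T2, row LIFT: there is at most one line of small variation
-/

set_option autoImplicit false

namespace Pool.Agent.T2.H95

open MvPolynomial Pool.Agent.Gen Pool.Agent.Sharp Pool.Agent.Edge
open Pool.Agent.Edge.H65 (ssub)
open Pool.Agent.Sharp.H54 (lineP_X lineP_C lineP_mul lineP_pow lineP_eval)

section

variable {K : Type} [Field K]

/-- a line of small variation -/
def Bad (D : D6 K) (x y : Fin 5 → K) : Prop :=
  ∃ κ : Fin 5 → K, ∀ G : MvPolynomial (Fin 5) K, G.IsHomogeneous 6 → lineP G x y = 0 →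
    D.V x 0 G ∈ Submodule.span K {x, κ}

/-- functionals with given values on independent vectors -/
theorem exists_fun {m r : ℕ} (v : Fin r → Fin m → K) (hv : LinearIndependent K v)
    (w : Fin r → K) : ∃ a : Fin m → K, ∀ i, ∑ q, a q * v i q = w i := by
  classical
  obtain ⟨g, hg⟩ := ((Module.Basis.span hv).constr K w).exists_extend
  refine ⟨fun q => g (Pi.single q 1), fun i => ?_⟩
  have h1 : g (v i) = w i := by
    have h2 := congrArg (fun f => f (Module.Basis.span hv i)) hg
    simp only [LinearMap.comp_apply, Submodule.subtype_apply, Module.Basis.constr_basis] at h2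
    rwa [Module.Basis.span_apply] at h2
  rw [← h1]
  have h3 : v i = ∑ q, v i q • Pi.single q (1 : K) := by
    funext r
    rw [Finset.sum_apply, Finset.sum_eq_single r]
    · simp
    · intro p _ hp
      simp [Ne.symm hp]
    · intro h
      exact absurd (Finset.mem_univ _) h
  conv_rhs => rw [h3]
  rw [map_sum]
  refine Finset.sum_congr rfl fun q _ => ?_
  rw [map_smul, smul_eq_mul, mul_comm]

/-- the restriction of a form to a line: the degree is at most the degree of the form -/
theorem lineP_natDegree {G : MvPolynomial (Fin 5) K} {e : ℕ} (hG : G.IsHomogeneous e)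
    (x y : Fin 5 → K) : (lineP G x y).natDegree ≤ e := by
  classical
  have h : lineP G x y = ∑ I ∈ G.support, lineP (monomial I (coeff I G)) x y := by
    conv_lhs => rw [G.as_sum]
    exact map_sum _ _ _
  rw [h]
  refine Polynomial.natDegree_sum_le_of_forall_le _ _ fun I hI => ?_
  have hd : I.degree = e := by
    have := hG (mem_support_iff.1 hI)
    rw [← this, Finsupp.degree_eq_weight_one]
    rfl
  have h1 : lineP (monomial I (coeff I G)) x y = Polynomial.C (coeff I G) *
      ∏ p, (Polynomial.C (x p) + Polynomial.X * Polynomial.C (y p)) ^ I p := by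
    unfold lineP
    rw [aeval_monomial, Finsupp.prod_fintype _ _ (fun i => pow_zero _)]
    rfl
  rw [h1]
  refine (Polynomial.natDegree_C_mul_le _ _).trans ?_
  refine (Polynomial.natDegree_prod_le _ _).trans ?_
  rw [← hd, Finsupp.degree_eq_sum]
  refine Finset.sum_le_sum fun p _ => ?_
  refine (Polynomial.natDegree_pow_le).trans ?_
  calc I p * (Polynomial.C (x p) + Polynomial.X * Polynomial.C (y p)).natDegree ≤ I p * 1 := by
        refine Nat.mul_le_mul_left _ ?_
        refine (Polynomial.natDegree_add_le _ _).trans (max_le ?_ ?_)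
        · rw [Polynomial.natDegree_C]
          exact Nat.zero_le _
        · refine (Polynomial.natDegree_mul_le).trans ?_
          rw [Polynomial.natDegree_C, Polynomial.natDegree_X]
    _ = I p := mul_one _

/-- splitting along two lines -/
theorem split2 {x y y2 : Fin 5 → K} (hli : LinearIndependent K ![y2, x, y])
    {G : MvPolynomial (Fin 5) K} (hG : G.IsHomogeneous 6) (h0 : eval x G = 0) :
    ∃ G1 : MvPolynomial (Fin 5) K, G1.IsHomogeneous 6 ∧ lineP G1 x y = 0 ∧
      lineP (G - G1) x y2 = 0 := by
  classical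
  obtain ⟨a, ha⟩ := exists_fun _ hli ![1, 0, 0]
  obtain ⟨b, hb⟩ := exists_fun _ hli ![0, 1, 0]
  have a0 : H75.dt a y2 = 1 := ha 0
  have a1 : H75.dt a x = 0 := ha 1
  have a2 : H75.dt a y = 0 := ha 2
  have b0 : H75.dt b y2 = 0 := hb 0
  have b1 : H75.dt b x = 1 := hb 1
  set g := lineP G x y2 with hg
  have g0 : g.coeff 0 = 0 := by
    rw [Polynomial.coeff_zero_eq_eval_zero, hg, lineP_eval]
    simpa using h0
  have hgd : g.natDegree ≤ 6 := lineP_natDegree hG x y2
  refine ⟨∑ j ∈ Finset.range 6, C (g.coeff (j + 1)) * (H75.lf b ^ (5 - j) * H75.lf a ^ (j + 1)),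
    ?_, ?_, ?_⟩
  · refine IsHomogeneous.sum _ _ _ fun j hj => ?_
    have hj' := Finset.mem_range.1 hj
    have h1 := (isHomogeneous_C (Fin 5) (g.coeff (j + 1))).mul
      (((H75.lf_hom b).pow (5 - j)).mul ((H75.lf_hom a).pow (j + 1)))
    have h2 : 0 + (1 * (5 - j) + 1 * (j + 1)) = 6 := by omega
    rwa [h2] at h1
  · rw [H75.lineP_sum]
    refine Finset.sum_eq_zero fun j _ => ?_
    rw [lineP_mul, lineP_mul, lineP_pow (H75.lf a), H75.lineP_lf, a1, a2]
    simp
  · rw [H75.lineP_sub, H75.lineP_sum, ← hg, sub_eq_zero]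
    have h3 : ∀ j, lineP (C (g.coeff (j + 1)) * (H75.lf b ^ (5 - j) * H75.lf a ^ (j + 1))) x y2 =
        Polynomial.C (g.coeff (j + 1)) * Polynomial.X ^ (j + 1) := by
      intro j
      rw [lineP_mul, lineP_mul, lineP_pow, lineP_pow, H75.lineP_lf, H75.lineP_lf, lineP_C, a0, a1,
        b0, b1]
      simp
    simp only [h3]
    conv_lhs => rw [g.as_sum_range_C_mul_X_pow' (n := 7) (by omega)]
    rw [Finset.sum_range_succ', g0]
    simp

/-- there is at most one line of small variation -/
theorem bad_uniq (D : D6 K) {x y y2 : Fin 5 → K} {t0 : Fin 5} (hx : x t0 = 1)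
    (hw : W0 D x) (hb : Bad D x y) (hb2 : Bad D x y2) : ¬ LinearIndependent K ![y2, x, y] := by
  classical
  intro hli
  obtain ⟨κ, hκ⟩ := hb
  obtain ⟨κ2, hκ2⟩ := hb2
  set U : Submodule K (Fin 5 → K) := Submodule.span K (Set.range ![x, κ, κ2]) with hU
  have hxU : x ∈ U := Submodule.subset_span ⟨0, rfl⟩
  have hκU : κ ∈ U := Submodule.subset_span ⟨1, rfl⟩
  have hκ2U : κ2 ∈ U := Submodule.subset_span ⟨2, rfl⟩
  have h1 : Submodule.span K {x, κ} ≤ U := by
    rw [Submodule.span_le]
    rintro u (rfl | hu)
    · exact hxU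
    · rw [Set.mem_singleton_iff.1 hu]
      exact hκU
  have h2 : Submodule.span K {x, κ2} ≤ U := by
    rw [Submodule.span_le]
    rintro u (rfl | hu)
    · exact hxU
    · rw [Set.mem_singleton_iff.1 hu]
      exact hκ2U
  have hV : ∀ G : MvPolynomial (Fin 5) K, G.IsHomogeneous 6 → eval x G = 0 → D.V x 0 G ∈ U := by
    intro G hG h0
    obtain ⟨G1, hG1, e1, e2⟩ := split2 hli hG h0
    have h3 : D.V x 0 G = D.V x 0 G1 + D.V x 0 (G - G1) := by
      rw [← map_add, add_sub_cancel]
    rw [h3]
    exact U.add_mem (h1 (hκ _ hG1 e1)) (h2 (hκ2 _ (hG.sub hG1) e2))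
  let f : (Fin 5 → K) →ₗ[K] K :=
    { toFun := fun u => ∑ p, u p * eval x (pderiv p (D.F 0))
      map_add' := fun u w => by simp only [Pi.add_apply, add_mul, Finset.sum_add_distrib]
      map_smul' := fun c u => by
        simp only [Pi.smul_apply, smul_eq_mul, RingHom.id_apply, Finset.mul_sum, mul_assoc] }
  have hker : LinearMap.ker f ≤ U := by
    intro u hu
    rw [LinearMap.mem_ker] at hu
    change ∑ p, u p * eval x (pderiv p (D.F 0)) = 0 at hu
    set G : MvPolynomial (Fin 5) K := ∑ p, u p • (X t0 * pderiv p (D.F 0)) with hG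
    have hGh : G.IsHomogeneous 6 := by
      refine IsHomogeneous.sum _ _ _ fun p _ => ?_
      have h3 := (isHomogeneous_C (Fin 5) (u p)).mul
        ((isHomogeneous_X K t0).mul ((D.hom 0).pderiv (i := p)))
      rw [smul_eq_C_mul]
      exact h3
    have hG0 : eval x G = 0 := by
      rw [hG, map_sum, ← hu]
      refine Finset.sum_congr rfl fun p _ => ?_
      rw [smul_eval, map_mul, eval_X, hx, one_mul]
    have h3 : ∑ p, u p • WT D x p t0 = u + D.V x 0 G := by
      rw [hG, map_sum]
      have h4 : ∀ p, u p • WT D x p t0 = u p • Pi.single p (1 : K) +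
          D.V x 0 (u p • (X t0 * pderiv p (D.F 0))) := by
        intro p
        unfold WT
        rw [VT_apply, Fin.sum_univ_one, hx, one_smul, smul_add, map_smul]
      simp only [h4]
      rw [Finset.sum_add_distrib]
      congr 1
      funext r
      rw [Finset.sum_apply, Finset.sum_eq_single r]
      · simp
      · intro p _ hp
        simp [Ne.symm hp]
      · intro h
        exact absurd (Finset.mem_univ _) h
    have h4 : ∑ p, u p • WT D x p t0 ∈ U := by
      refine Submodule.sum_mem _ fun p _ => Submodule.smul_mem _ _ ?_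
      have h5 : Submodule.span K {x} ≤ U := by
        rw [Submodule.span_singleton_le_iff_mem]
        exact hxU
      exact h5 (hw p t0)
    have h5 : u = (∑ p, u p • WT D x p t0) - D.V x 0 G := by
      rw [h3, add_sub_cancel_right]
    rw [h5]
    exact U.sub_mem h4 (hV G hGh hG0)
  have hfU : Module.finrank K U ≤ 3 := by
    have := finrank_range_le_card (R := K) (b := ![x, κ, κ2])
    rwa [Fintype.card_fin] at this
  have h6 := LinearMap.finrank_range_add_finrank_ker f
  have h7 : Module.finrank K (LinearMap.range f) ≤ 1 := by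
    have := Submodule.finrank_le (LinearMap.range f)
    rwa [Module.finrank_self] at this
  have h8 := Submodule.finrank_mono hker
  rw [Module.finrank_fin_fun] at h6
  omega

/-- vanishing on a line does not depend on the second point -/
theorem lineP_change [CharZero K] {G : MvPolynomial (Fin 5) K} {e : ℕ} (hG : G.IsHomogeneous e)
    {x y z : Fin 5 → K} {a b : K} (hy : y = a • x + b • z) (h : lineP G x z = 0) :
    lineP G x y = 0 := by
  rw [Pool.Agent.Lines.H19.lineP_zero_iff hG] at h ⊢
  intro s t
  rw [← h (s + t * a) (t * b), hy]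
  congr 2
  funext p
  simp only [Pi.add_apply, Pi.smul_apply, smul_eq_mul]
  ring

end

end Pool.Agent.T2.H95
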