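import Pool.Agent.Lib.MP_c7af3c_ag.T2.H95.Close
import Pool.Agent.Lib.MP_c7af3c_ag.LINES.H19.Lidl
import Pool.Agent.Lib.MP_c7af3c_ag.LINES.H19.NoLine

/-!
# MP_c7af3c_ag, project T2, row LIFT: functionals applied to the coefficients
-/

set_option autoImplicit false

namespace Pool.Agent.T2.H95

open MvPolynomial Pool.Agent.Gen Pool.Agent.Sharp Pool.Agent.Edge
open Pool.Agent.Edge.H65 (ssub)

section lam

variable {Ω K : Type} [Field Ω] [Field K] [Algebra Ω K] {σ τ : Type}

/-- a functional applied to the coefficients -/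
noncomputable def Lam (l : K →ₗ[Ω] Ω) (G : MvPolynomial σ K) : MvPolynomial σ Ω :=
  ∑ I ∈ G.support, monomial I (l (coeff I G))

variable (l : K →ₗ[Ω] Ω)

theorem coeff_Lam (G : MvPolynomial σ K) (I : σ →₀ ℕ) : coeff I (Lam l G) = l (coeff I G) := by
  classical
  unfold Lam
  rw [coeff_sum, Finset.sum_eq_single I]
  · rw [coeff_monomial, if_pos rfl]
  · intro J _ hJ
    rw [coeff_monomial, if_neg hJ]
  · intro h
    rw [coeff_monomial, if_pos rfl, notMem_support_iff.1 h, map_zero]

theorem Lam_add (G H : MvPolynomial σ K) : Lam l (G + H) = Lam l G + Lam l H := by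
  ext I
  rw [coeff_add, coeff_Lam, coeff_Lam, coeff_Lam, coeff_add, map_add]

theorem Lam_zero : Lam l (0 : MvPolynomial σ K) = 0 := by
  ext I
  rw [coeff_Lam, coeff_zero, map_zero, coeff_zero]

theorem Lam_hom {G : MvPolynomial σ K} {e : ℕ} (hG : G.IsHomogeneous e) :
    (Lam l G).IsHomogeneous e := by
  intro I hI
  apply hG
  intro h0
  apply hI
  rw [coeff_Lam, h0, map_zero]

theorem Lam_map_mul (A : MvPolynomial σ Ω) (G : MvPolynomial σ K) :
    Lam l (map (algebraMap Ω K) A * G) = A * Lam l G := by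
  classical
  ext I
  rw [coeff_Lam, coeff_mul, coeff_mul, map_sum]
  refine Finset.sum_congr rfl fun q _ => ?_
  rw [coeff_map, coeff_Lam, ← Algebra.smul_def, map_smul, smul_eq_mul]

theorem Lam_monomial (I : σ →₀ ℕ) (a : K) : Lam l (monomial I a) = monomial I (l a) := by
  classical
  ext J
  rw [coeff_Lam, coeff_monomial, coeff_monomial]
  split_ifs
  · rfl
  · exact map_zero _

theorem Lam_aeval (g : σ → MvPolynomial τ Ω) (G : MvPolynomial σ K) :
    Lam l (aeval (fun i => map (algebraMap Ω K) (g i)) G) = aeval g (Lam l G) := by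
  induction G using MvPolynomial.induction_on' with
  | monomial I a =>
    rw [aeval_monomial, Lam_monomial, aeval_monomial]
    have h : (I.prod fun i k => (map (algebraMap Ω K) (g i)) ^ k) =
        map (algebraMap Ω K) (I.prod fun i k => g i ^ k) := by
      rw [map_finsuppProd]
      simp only [map_pow]
    rw [h, mul_comm, Lam_map_mul, mul_comm]
    congr 1
    change Lam l (monomial 0 a) = monomial 0 (l a)
    exact Lam_monomial l 0 a
  | add p q hp hq => rw [map_add, Lam_add, hp, hq, Lam_add, map_add]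

theorem Lam_rename (t : σ → τ) (G : MvPolynomial σ K) :
    Lam l (rename t G) = rename t (Lam l G) := by
  induction G using MvPolynomial.induction_on' with
  | monomial I a => rw [rename_monomial, Lam_monomial, Lam_monomial, rename_monomial]
  | add p q hp hq => rw [map_add, Lam_add, hp, hq, Lam_add, map_add]

theorem Lam_ssub {n : ℕ} (P : Fin 3 → Fin (n + 1) → Ω) (G : MvPolynomial (Fin (n + 1)) K) :
    Lam l (ssub (fun i f => algebraMap Ω K (P i f)) G) = ssub P (Lam l G) := by
  have h := Lam_aeval l (fun j => (∑ i, C (P i j) * X i : MvPolynomial (Fin 3) Ω)) G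
  simp only [map_sum, map_mul, map_C, map_X] at h
  exact h

theorem Lam_map (hl : ∀ a, l (algebraMap Ω K a) = a) (A : MvPolynomial σ Ω) :
    Lam l (map (algebraMap Ω K) A) = A := by
  ext I
  rw [coeff_Lam, coeff_map, hl]

/-- functionals separate the points -/
theorem eq_zero_of_fun (Ω : Type) {K : Type} [Field Ω] [Field K] [Algebra Ω K] {a : K} (h : ∀ l : K →ₗ[Ω] Ω, l a = 0) : a = 0 :=
  (Module.forall_dual_apply_eq_zero_iff Ω a).1 h

variable (Ω K) in
theorem exists_retr : ∃ l : K →ₗ[Ω] Ω, ∀ a, l (algebraMap Ω K a) = a := by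
  obtain ⟨l, hl⟩ := Module.Projective.exists_dual_eq_one Ω (one_ne_zero (α := K))
  refine ⟨l, fun a => ?_⟩
  rw [Algebra.algebraMap_eq_smul_one, map_smul, smul_eq_mul]
  exact (congrArg (a * ·) hl).trans (mul_one a)

/-- linear independence over the larger field -/
theorem li_ext {ι : Type} [Fintype ι] {m : ℕ} (v : ι → Fin m → Ω) (h : LinearIndependent Ω v) :
    LinearIndependent K fun i p => algebraMap Ω K (v i p) := by
  rw [Fintype.linearIndependent_iff] at h ⊢
  intro g hg i
  refine eq_zero_of_fun Ω fun l => ?_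
  refine h (fun i => l (g i)) ?_ i
  funext p
  have h1 := congrArg l (congrFun hg p)
  rw [Finset.sum_apply, map_sum] at h1
  rw [Finset.sum_apply, Pi.zero_apply]
  rw [Pi.zero_apply, map_zero] at h1
  rw [← h1]
  refine Finset.sum_congr rfl fun i _ => ?_
  rw [Pi.smul_apply, Pi.smul_apply, smul_eq_mul, smul_eq_mul, mul_comm (g i),
    ← Algebra.smul_def, map_smul, smul_eq_mul, mul_comm]

end lam

/-! ### the variations over the larger field -/

section ext

variable {Ω K : Type} [Field Ω] [Field K] [Algebra Ω K]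

/-- `D'` extends `D` -/
structure Ext6 (D : D6 Ω) (D' : D6 K) : Prop where
  F : D'.F 0 = map (algebraMap Ω K) (D.F 0)
  del : ∀ I f, D'.del 0 I (algebraMap Ω K f) = algebraMap Ω K (D.del 0 I f)

variable {D : D6 Ω} {D' : D6 K} (h : Ext6 D D') (u : Fin 5 → Ω)

include h

theorem Ext6.V_mon (I : Fin 5 →₀ ℕ) (a : K) (p : Fin 5) :
    D'.V (fun j => algebraMap Ω K (u j)) 0 (monomial I a) p =
      a * algebraMap Ω K (D.del 0 I (u p)) := by
  rw [DSys.V_monomial, h.del]

theorem Ext6.V_map (G : MvPolynomial (Fin 5) Ω) (p : Fin 5) :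
    D'.V (fun j => algebraMap Ω K (u j)) 0 (map (algebraMap Ω K) G) p =
      algebraMap Ω K (D.V u 0 G p) := by
  induction G using MvPolynomial.induction_on' with
  | monomial I a => rw [map_monomial, h.V_mon, DSys.V_monomial, map_mul]
  | add p q hp hq =>
    rw [map_add, map_add, Pi.add_apply, hp, hq, map_add, Pi.add_apply, map_add]

theorem Ext6.V_Lam (l : K →ₗ[Ω] Ω) (G : MvPolynomial (Fin 5) K) (p : Fin 5) :
    l (D'.V (fun j => algebraMap Ω K (u j)) 0 G p) = D.V u 0 (Lam l G) p := by
  induction G using MvPolynomial.induction_on' with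
  | monomial I a =>
    rw [h.V_mon, Lam_monomial, DSys.V_monomial, mul_comm, ← Algebra.smul_def, map_smul,
      smul_eq_mul, mul_comm]
  | add p q hp hq =>
    rw [map_add, Pi.add_apply, map_add, hp, hq, Lam_add, map_add, Pi.add_apply]

theorem Ext6.V_sig (s : K ≃ₐ[Ω] K) (G : MvPolynomial (Fin 5) K) (p : Fin 5) :
    s (D'.V (fun j => algebraMap Ω K (u j)) 0 G p) =
      D'.V (fun j => algebraMap Ω K (u j)) 0 (map (s : K →+* K) G) p := by
  induction G using MvPolynomial.induction_on' with
  | monomial I a =>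
    rw [map_monomial, h.V_mon, h.V_mon, map_mul, AlgEquiv.commutes]
    rfl
  | add p q hp hq =>
    rw [map_add, Pi.add_apply, map_add, hp, hq, map_add, map_add, Pi.add_apply]

/-- `Pl.int` over the larger field -/
theorem Ext6.int (P : Fin 3 → Fin 5 → Ω)
    (hi : ∀ G : MvPolynomial (Fin 5) Ω, G.IsHomogeneous 6 → ssub P G = 0 → D.V u 0 G = 0)
    (G : MvPolynomial (Fin 5) K) (hG : G.IsHomogeneous 6)
    (h0 : ssub (fun i f => algebraMap Ω K (P i f)) G = 0) :
    D'.V (fun j => algebraMap Ω K (u j)) 0 G = 0 := by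
  funext p
  refine eq_zero_of_fun Ω fun l => ?_
  rw [h.V_Lam, hi (Lam l G) (Lam_hom l hG)]
  · rfl
  · rw [← Lam_ssub, h0, Lam_zero]

theorem Ext6.wt (p q : Fin 5) :
    WT D' (fun j => algebraMap Ω K (u j)) p q = fun f => algebraMap Ω K (WT D u p q f) := by
  classical
  funext f
  unfold WT
  rw [VT_apply, VT_apply, Fin.sum_univ_one, Fin.sum_univ_one, Pi.add_apply, Pi.add_apply, map_add]
  congr 1
  · rw [Pi.smul_apply, Pi.smul_apply, smul_eq_mul, smul_eq_mul, map_mul]
    congr 1
    by_cases hf : f = p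
    · subst hf
      rw [Pi.single_eq_same, Pi.single_eq_same, map_one]
    · rw [Pi.single_eq_of_ne hf, Pi.single_eq_of_ne hf, map_zero]
  · rw [← h.V_map, h.F, pderiv_map]
    rw [map_mul (map (algebraMap Ω K)), map_X]

/-- `W0` over the larger field -/
theorem Ext6.w0 (hw : W0 D u) : W0 D' fun j => algebraMap Ω K (u j) := by
  intro p q
  obtain ⟨c, hc⟩ := Submodule.mem_span_singleton.1 (hw p q)
  rw [Submodule.mem_span_singleton]
  refine ⟨algebraMap Ω K c, ?_⟩
  rw [h.wt]
  funext f
  rw [← hc, Pi.smul_apply, Pi.smul_apply, smul_eq_mul, smul_eq_mul, map_mul]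

/-- the condition on `R6` over the larger field -/
theorem Ext6.r6 (t : Fin 3 → Fin 5) (P : Fin 3 → Fin 5 → Ω) (B : MvPolynomial (Fin 3) ℤ)
    (hB : B.IsHomogeneous 3)
    (hR : R6 D u t P ⊔ mulS (MvPolynomial.map (Int.castRingHom Ω) B) 3 ≠ S3 Ω 6) :
    R6 D' (fun j => algebraMap Ω K (u j)) t (fun i f => algebraMap Ω K (P i f)) ⊔
      mulS (MvPolynomial.map (Int.castRingHom K) B) 3 ≠ S3 K 6 := by
  intro he
  apply hR
  obtain ⟨l, hl⟩ := exists_retr Ω K
  refine le_antisymm (sup_le (fun g hg => hg.1) ?_) ?_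
  · rintro g ⟨b, hb, rfl⟩
    exact ((hB.map (Int.castRingHom Ω)).mul hb : _)
  · intro g hg
    have hg' : map (algebraMap Ω K) g ∈ S3 K 6 := (MvPolynomial.IsHomogeneous.map hg _ : _)
    rw [← he] at hg'
    obtain ⟨r, hr, b', hb', hrb⟩ := Submodule.mem_sup.1 hg'
    obtain ⟨b, hb, rfl⟩ := hb'
    have hBB : MvPolynomial.map (Int.castRingHom K) B =
        map (algebraMap Ω K) (MvPolynomial.map (Int.castRingHom Ω) B) := by
      rw [map_map, show (algebraMap Ω K).comp (Int.castRingHom Ω) = Int.castRingHom K from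
        RingHom.ext_int _ _]
    have h1 : g = Lam l r + MvPolynomial.map (Int.castRingHom Ω) B * Lam l b := by
      rw [← Lam_map_mul, ← hBB, ← Lam_add]
      exact ((congrArg (Lam l) hrb).trans (Lam_map l hl g)).symm
    rw [h1]
    refine Submodule.add_mem_sup ⟨Lam_hom l hr.1, ?_, fun i => ?_⟩ ⟨Lam l b, Lam_hom l hb, rfl⟩
    · funext p
      rw [← Lam_rename, ← h.V_Lam, hr.2.1]
      exact map_zero l
    · funext p
      rw [← Lam_rename, ← h.V_Lam, hr.2.2 i]
      exact map_zero l

end ext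

end Pool.Agent.T2.H95
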